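import Pool.Agent.Y546.WQ.Stm5
import Pool.Agent.Y546.WQ.FldG

/-!
# Project TJ (helper546), job NSQ: the norm of an ideal square is an ideal square
-/

set_option autoImplicit false

namespace Pool.Agent.Y646.WQ

open NumberField IsDedekindDomain Polynomial Pool.Agent.Y546.WQ IntermediateField

/-- homomorphisms from a number field are equal if they agree at a generator -/
theorem ext_gen {K Ω : Type} [Field K] [NumberField K] [Field Ω] (pb : PowerBasis ℚ K)
    (φ ψ : K →+* Ω) (h : φ pb.gen = ψ pb.gen) : φ = ψ := by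
  ext x
  obtain ⟨g, rfl⟩ := pb.exists_eq_aeval' x
  rw [aeval_def, hom_eval₂, hom_eval₂, h]
  congr 1
  exact Subsingleton.elim _ _

open Classical in
theorem block {E K Ω : Type} [Field E] [NumberField E] [Field K] [NumberField K] [Field Ω]
    [CharZero Ω] [IsAlgClosed Ω] [Algebra E Ω] (X Y : 𝓞 K) (w : 𝓞 E)
    (hsq : ∀ (L : Type) [Field L] [NumberField L] (j : E →+* L) (τ : K →+* L),
      ∃ A : Ideal (𝓞 L), A ≠ ⊥ ∧ Ideal.span {RingOfIntegers.mapRingHom τ X +
        RingOfIntegers.mapRingHom j w * RingOfIntegers.mapRingHom τ Y} = A ^ 2)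
    (pb : PowerBasis ℚ K) (τ₀ : K →+* Ω) :
    ∃ (n : 𝓞 E) (B : Ideal (𝓞 E)), B ≠ ⊥ ∧ Ideal.span {n} = B ^ 2 ∧
      algebraMap E Ω (n : E) = ∏ τ ∈ Finset.univ.filter
        (fun τ : K →+* Ω => minpoly E (τ pb.gen) = minpoly E (τ₀ pb.gen)),
          (τ (X : K) + algebraMap E Ω (w : E) * τ (Y : K)) := by
  obtain ⟨α, hα⟩ : ∃ α, α = τ₀ pb.gen := ⟨_, rfl⟩
  have hint : IsIntegral E α := by
    refine ⟨(minpoly ℚ pb.gen).map (algebraMap ℚ E), (minpoly.monic pb.isIntegral_gen).map _, ?_⟩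
    rw [eval₂_map, hα]
    have h1 : (algebraMap E Ω).comp (algebraMap ℚ E) = τ₀.comp (algebraMap ℚ K) :=
      Subsingleton.elim _ _
    rw [h1, ← hom_eval₂, ← aeval_def, minpoly.aeval, map_zero]
  haveI : FiniteDimensional E E⟮α⟯ := adjoin.finiteDimensional hint
  haveI : NumberField E⟮α⟯ := NumberField.of_module_finite E E⟮α⟯
  have hmem : ∀ x : K, τ₀ x ∈ E⟮α⟯ := by
    intro x
    obtain ⟨g, rfl⟩ := pb.exists_eq_aeval' x
    have h1 : τ₀ (aeval pb.gen g) =
        algebraMap E⟮α⟯ Ω (eval₂ (algebraMap ℚ E⟮α⟯) (AdjoinSimple.gen E α) g) := by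
      rw [hom_eval₂, aeval_def, hom_eval₂, AdjoinSimple.algebraMap_gen, hα]
      congr 1
      exact Subsingleton.elim _ _
    rw [h1]
    exact SetLike.coe_mem _
  let τ' : K →+* E⟮α⟯ := τ₀.codRestrict E⟮α⟯ hmem
  have hτ' : ∀ x, ((τ' x : E⟮α⟯) : Ω) = τ₀ x := fun x => rfl
  have hgen : τ' pb.gen = AdjoinSimple.gen E α := by
    apply Subtype.ext
    rw [hτ', AdjoinSimple.coe_gen, hα]
  obtain ⟨A, hA0, hA⟩ := hsq E⟮α⟯ (algebraMap E E⟮α⟯) τ'
  obtain ⟨a, ha⟩ : ∃ a : 𝓞 E⟮α⟯, a = RingOfIntegers.mapRingHom τ' X +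
    RingOfIntegers.mapRingHom (algebraMap E E⟮α⟯) w * RingOfIntegers.mapRingHom τ' Y := ⟨_, rfl⟩
  rw [← ha] at hA
  refine ⟨Algebra.intNorm (𝓞 E) (𝓞 E⟮α⟯) a, Ideal.relNorm (𝓞 E) A, ?_, ?_, ?_⟩
  · rwa [Ne, Ideal.relNorm_eq_bot_iff]
  · rw [← Ideal.relNorm_singleton, hA, map_pow]
  · have h1 : ((Algebra.intNorm (𝓞 E) (𝓞 E⟮α⟯) a : 𝓞 E) : E) =
        Algebra.norm E (a : E⟮α⟯) :=
      Algebra.algebraMap_intNorm (A := 𝓞 E) (K := E) (L := E⟮α⟯) (B := 𝓞 E⟮α⟯) a
    have hav : (a : E⟮α⟯) = τ' (X : K) + algebraMap E E⟮α⟯ (w : E) * τ' (Y : K) := by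
      rw [ha]
      rfl
    rw [h1, Algebra.norm_eq_prod_embeddings E Ω (a : E⟮α⟯)]
    refine Finset.prod_bij (fun σ _ => (σ : E⟮α⟯ →+* Ω).comp τ') ?_ ?_ ?_ ?_
    · intro σ _
      rw [Finset.mem_filter]
      refine ⟨Finset.mem_univ _, ?_⟩
      have h2 : ((σ : E⟮α⟯ →+* Ω).comp τ') pb.gen = σ (τ' pb.gen) := rfl
      rw [h2, minpoly.algHom_eq σ σ.toRingHom.injective, hgen, ← hα, minpoly_gen]
    · intro σ₁ _ σ₂ _ h
      apply (adjoin.powerBasis hint).algHom_ext
      rw [adjoin.powerBasis_gen, ← hgen]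
      exact congrArg (fun φ : K →+* Ω => φ pb.gen) h
    · intro τ hτ
      rw [Finset.mem_filter] at hτ
      have h3 : aeval (τ pb.gen) (minpoly E (adjoin.powerBasis hint).gen) = 0 := by
        rw [adjoin.powerBasis_gen, minpoly_gen, hα, ← hτ.2]
        exact minpoly.aeval _ _
      refine ⟨(adjoin.powerBasis hint).lift (τ pb.gen) h3, Finset.mem_univ _, ?_⟩
      apply ext_gen pb
      have h4 : (adjoin.powerBasis hint).lift (τ pb.gen) h3 (adjoin.powerBasis hint).gen =
        τ pb.gen := PowerBasis.lift_gen _ _ _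
      rw [adjoin.powerBasis_gen, ← hgen] at h4
      exact h4
    · intro σ _
      rw [hav, map_add, map_mul, AlgHom.commutes]
      rfl

theorem mainNSQ : S_NSQ := by
  classical
  intro E K N _ _ _ _ _ _ i hcard X Y w f hf hsq
  let pb : PowerBasis ℚ K := Field.powerBasisOfFiniteOfSeparable ℚ K
  letI : Algebra E (AlgebraicClosure N) := ((algebraMap N (AlgebraicClosure N)).comp i).toAlgebra
  haveI : CharZero (AlgebraicClosure N) :=
    charZero_of_injective_algebraMap (algebraMap N (AlgebraicClosure N)).injective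
  have hkey : ∀ k ∈ Finset.univ.image
      (fun τ : K →+* AlgebraicClosure N => minpoly E (τ pb.gen)),
      ∃ (n : 𝓞 E) (B : Ideal (𝓞 E)), B ≠ ⊥ ∧ Ideal.span {n} = B ^ 2 ∧
      algebraMap E (AlgebraicClosure N) (n : E) = ∏ τ ∈ Finset.univ.filter
        (fun τ : K →+* AlgebraicClosure N => minpoly E (τ pb.gen) = k),
          (τ (X : K) + algebraMap E (AlgebraicClosure N) (w : E) * τ (Y : K)) := by
    intro k hk
    obtain ⟨τ₀, -, rfl⟩ := Finset.mem_image.1 hk
    exact block X Y w hsq pb τ₀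
  choose! n B hB0 hB hn using hkey
  -- the value of the polynomial
  have hval : algebraMap E (AlgebraicClosure N) ((aeval w f : 𝓞 E) : E) =
      ∏ τ : K →+* AlgebraicClosure N,
        (τ (X : K) + algebraMap E (AlgebraicClosure N) (w : E) * τ (Y : K)) := by
    have e1 := eval_f hf (RingOfIntegers.mapRingHom i w)
    have e0 : aeval (RingOfIntegers.mapRingHom i w) f = RingOfIntegers.mapRingHom i (aeval w f) := by
      rw [aeval_def, aeval_def, hom_eval₂]
      congr 1
      exact RingHom.ext_int _ _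
    rw [e0] at e1
    have e2 : algebraMap E (AlgebraicClosure N) ((aeval w f : 𝓞 E) : E) =
        ∏ τ : K →+* N, algebraMap N (AlgebraicClosure N)
          (τ (X : K) + i (w : E) * τ (Y : K)) := by
      have e3 := congrArg (fun t : 𝓞 N => algebraMap N (AlgebraicClosure N)
        (algebraMap (𝓞 N) N t)) e1
      simp only [map_prod] at e3
      exact e3
    rw [e2]
    refine Fintype.prod_bijective (fun τ : K →+* N => (algebraMap N (AlgebraicClosure N)).comp τ)
      ?_ _ _ ?_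
    · rw [Fintype.bijective_iff_injective_and_card]
      constructor
      · intro τ₁ τ₂ h
        apply RingHom.ext
        intro x
        apply (algebraMap N (AlgebraicClosure N)).injective
        exact congrArg (fun φ : K →+* AlgebraicClosure N => φ x) h
      · rw [← Nat.card_eq_fintype_card, hcard, NumberField.Embeddings.card K (AlgebraicClosure N)]
    · intro τ
      rw [map_add, map_mul]
      rfl
  have hprod : aeval w f = ∏ k ∈ Finset.univ.image
      (fun τ : K →+* AlgebraicClosure N => minpoly E (τ pb.gen)), n k := by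
    apply RingOfIntegers.coe_injective
    apply (algebraMap E (AlgebraicClosure N)).injective
    rw [hval]
    have e4 : algebraMap (𝓞 E) E (∏ k ∈ Finset.univ.image
        (fun τ : K →+* AlgebraicClosure N => minpoly E (τ pb.gen)), n k) =
        ∏ k ∈ Finset.univ.image
          (fun τ : K →+* AlgebraicClosure N => minpoly E (τ pb.gen)), algebraMap (𝓞 E) E (n k) :=
      map_prod _ _ _
    rw [e4, map_prod]
    rw [← Finset.prod_fiberwise_of_maps_to (s := (Finset.univ : Finset (K →+* AlgebraicClosure N)))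
      (t := Finset.univ.image (fun τ : K →+* AlgebraicClosure N => minpoly E (τ pb.gen)))
      (g := fun τ : K →+* AlgebraicClosure N => minpoly E (τ pb.gen))
      (fun τ hτ => Finset.mem_image_of_mem _ hτ)]
    exact (Finset.prod_congr rfl fun k hk => hn k hk).symm
  refine ⟨∏ k ∈ Finset.univ.image
      (fun τ : K →+* AlgebraicClosure N => minpoly E (τ pb.gen)), B k, ?_, ?_⟩
  · rw [← Ideal.zero_eq_bot]
    exact Finset.prod_ne_zero_iff.2 fun k hk => hB0 k hk
  · rw [hprod, ← Ideal.prod_span_singleton, ← Finset.prod_pow]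
    exact Finset.prod_congr rfl fun k hk => hB k hk

end Pool.Agent.Y646.WQ
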